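import Pool.Agent.Helper50.TS.Main
import Pool.Graph.R_pool_sql_team_seeded_3997aac3.Q84.HW.Mean

/-!
# The Ramanujan bound for the coefficients of cusp forms of weight 3/2 at bounded patterns of consecutive primes

The question asks for the bound `|a_f(r)| ≤ C r ^ (1/4 + ε)` for all squarefree `r` and for cusp forms `f` of weight `3/2`. Here we
prove it, up to a power of the logarithm and for finitely many cusp forms of weight `3/2` of any levels and characters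
at the same time, for ALL primes in bounded patterns of consecutive primes, at EVERY large scale. Let `V` be an admissible set with
`log |V| ≥ (4 + ε) m + C` and `a` a residue class modulo `q` such that all `a + v`, `v ∈ V`, are prime to `q`. For every large `X`

(1) there is a distribution `μ` on the subsets of `V` with at least `m` elements with
`Prob (U ⊆ P) ≤ (C m |U| / |V|) ^ |U|` for all `U ⊆ V` with at most `m` elements, all of whose values `P` have the property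
`Good`: for at least `X / (log X) ^ B` integers `t ≤ X`, `t ≡ a (mod q)`, the elements of `t + P` are consecutive primes (and there
is no other prime in `[t - R, t + max P]`), and ALL these primes `p` have `|a_f(p)| ≤ p ^ (1/4) (log p) ^ B` for the given forms;

(2) almost all subsets of `V` with about `m²` elements contain an `m`-element set with this property.

The exponent `B` depends only on `ε` and `m`, not on the forms. Proof: exact patterns (`Helper50/SP`, `Helper50/TS`; hand-ins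
`MP_3ec731_nt.SpreadExactPatterns`, `TypicalSubsets`) are realised by at least `X / (log X) ^ B` integers up to `X`, and by
the mean square of the coefficients (Rankin, Hecke; library) there are few exceptions.
-/

set_option autoImplicit false

open Finset Filter
open scoped MatrixGroups

namespace Pool.Agent.Results.MP_af11aa_nt.ConsecutivePrimes

open UpperHalfPlane CongruenceSubgroup

/-- `ε_d` for odd `d`: `1` if `d ≡ 1 mod 4`, `i` if `d ≡ 3 mod 4` -/
noncomputable def eps (d : ℤ) : ℂ := if d % 4 = 1 then 1 else Complex.I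

/-- Shimura's symbol `(c/d)`, `d` odd -/
def sym (c d : ℤ) : ℤ := if c < 0 ∧ d < 0 then -jacobiSym c d.natAbs else jacobiSym c d.natAbs

/-- the theta multiplier `j(γ, z) = ε_d⁻¹ (c/d) (c z + d) ^ (1/2)` -/
noncomputable def j (γ : SL(2, ℤ)) (z : ℍ) : ℂ :=
  (eps (γ 1 1))⁻¹ * (sym (γ 1 0) (γ 1 1) : ℂ) * ((γ 1 0 : ℂ) * z + (γ 1 1 : ℂ)) ^ (1 / 2 : ℂ)

/-- `f` is a cusp form of weight `3/2` on `Γ₀(N)` with character `χ`: holomorphic,
`f(γ z) = χ(d) j(γ, z) ^ 3 f(z)` for `γ` in `Γ₀(N)`, and `f(σ z) (c z + d) ^ (-3/2)` tends to `0` for `Im z → ∞`, for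
every `σ` in `SL₂(ℤ)` -/
structure IsCuspForm (N : ℕ) (χ : DirichletCharacter ℂ N) (f : ℍ → ℂ) : Prop where
  holo : MDifferentiable (modelWithCornersSelf ℂ ℂ) (modelWithCornersSelf ℂ ℂ) f
  slash : ∀ γ ∈ Gamma0 N, ∀ z : ℍ, f (γ • z) = χ ((γ 1 1 : ℤ) : ZMod N) * j γ z ^ 3 * f z
  zero : ∀ σ : SL(2, ℤ), IsZeroAtImInfty fun z : ℍ => f (σ • z) * ((σ 1 0 : ℂ) * z + (σ 1 1 : ℂ)) ^ (-(3 / 2) : ℂ)

/-- the coefficient `a_f(n)` of `e^(2 π i n z)` -/
noncomputable def coeff (f : ℍ → ℂ) (n : ℕ) : ℂ := (qExpansion 1 f).coeff n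

/-- `V` is admissible: for every prime `q` some translate of `V` contains no multiple of `q`. -/
def Admissible (V : Finset ℕ) : Prop :=
  ∀ q : ℕ, q.Prime → ∃ t : ℕ, ∀ v ∈ V, ¬ q ∣ t + v

/-- the numbers `t + u`, `u ∈ H`, are prime, and there is no other prime in `[t - R, t + max H]` -/
def Consecutive (R : ℕ) (H : Finset ℕ) (t : ℕ) : Prop :=
  (∀ u ∈ H, (t + u).Prime) ∧
    ∀ p : ℕ, p.Prime → t ≤ p + R → (∃ u ∈ H, p ≤ t + u) → ∃ u ∈ H, p = t + u

/-- There are at least `X / (log X) ^ B` integers `t ≤ X`, `t ≡ a (mod q)`, such that the elements of `t + H` are consecutive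
primes `p` and `|a_f(p)| ≤ p ^ (1/4) (log p) ^ B` for all of them and for all the forms. -/
def Good (B q a R : ℕ) {r : ℕ} (f : Fin r → ℍ → ℂ) (X : ℕ) (H : Finset ℕ) : Prop :=
  (X : ℝ) / Real.log X ^ B ≤
    Set.ncard {t : ℕ | t ≤ X ∧ t ≡ a [MOD q] ∧ Consecutive R H t ∧
      ∀ u ∈ H, ∀ i, ‖coeff (f i) (t + u)‖ ≤ ((t + u : ℕ) : ℝ) ^ (1 / 4 : ℝ) * Real.log ((t + u : ℕ) : ℝ) ^ B}

/-- `μ` is a probability distribution on the subsets of `V` with at least `m` elements such that a random set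
contains a given set `U` of at most `m` elements with probability at most `(C m |U| / |V|) ^ |U|`. -/
def Spread (C : ℝ) (m : ℕ) (V : Finset ℕ) (μ : Finset ℕ → ℝ) : Prop :=
  (∀ P, 0 ≤ μ P) ∧ (∀ P, μ P ≠ 0 → P ⊆ V ∧ m ≤ P.card) ∧ ∑ P ∈ V.powerset, μ P = 1 ∧
    ∀ U ⊆ V, U.card ≤ m →
      ∑ P ∈ V.powerset with U ⊆ P, μ P ≤ (C * m * U.card / V.card) ^ U.card

/-- For every `T` at most the proportion `2 ^ (1 - T / (C m²))` of the `T`-element subsets of `V` contains no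
good set with `m` elements, and if `2 m ≤ T ≤ m²`, then the proportion of the `T`-element subsets of `V` which
contain a good set with `m` elements is at least `(T / (C m²)) ^ m`. -/
def Typical (C : ℝ) (m : ℕ) (V : Finset ℕ) (good : Finset ℕ → Prop) : Prop := ∀ T : ℕ,
  (Set.ncard {W : Finset ℕ | W ⊆ V ∧ W.card = T ∧ ¬ ∃ H ⊆ W, H.card = m ∧ good H} : ℝ) ≤
      2 ^ (1 - T / (C * m ^ 2) : ℝ) * (V.card.choose T : ℕ) ∧
    (2 * m ≤ T → T ≤ m ^ 2 → (T / (C * m ^ 2) : ℝ) ^ m * (V.card.choose T : ℕ) ≤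
      Set.ncard {W : Finset ℕ | W ⊆ V ∧ W.card = T ∧ ∃ H ⊆ W, H.card = m ∧ good H})

theorem spread_mono {C C' : ℝ} (hC : 0 ≤ C) (hCC : C ≤ C') {m : ℕ} {V : Finset ℕ} {μ : Finset ℕ → ℝ}
    (h : Pool.Agent.Helper50.SP.Spread C m V μ) : Spread C' m V μ := by
  refine ⟨h.1, h.2.1, h.2.2.1, fun U hU hUm => (h.2.2.2 U hU hUm).trans ?_⟩
  gcongr

theorem typical_mono {C C' : ℝ} (hC : 0 < C) (hCC : C ≤ C') {m : ℕ} (hm : 1 ≤ m) {V : Finset ℕ}
    {g g' : Finset ℕ → Prop} (hg : ∀ H ⊆ V, H.card = m → g H → g' H)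
    (h : Pool.Agent.Helper50.TS.Typical C m V g) : Typical C' m V g' := by
  classical
  intro T
  obtain ⟨h1, h2⟩ := h T
  have hm0 : (0 : ℝ) < m := by exact_mod_cast hm
  have hfin : ∀ Q : Finset ℕ → Prop, {W : Finset ℕ | W ⊆ V ∧ W.card = T ∧ Q W}.Finite := fun Q =>
    (V.powerset.finite_toSet).subset fun W hW => by
      rw [Finset.mem_coe, mem_powerset]
      exact hW.1
  have hTC : (T : ℝ) / (C' * m ^ 2) ≤ T / (C * m ^ 2) := by
    apply div_le_div_of_nonneg_left (Nat.cast_nonneg _) (by positivity)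
    gcongr
  refine ⟨?_, fun h3 h4 => ?_⟩
  · have h5 : (Set.ncard {W : Finset ℕ | W ⊆ V ∧ W.card = T ∧ ¬ ∃ H ⊆ W, H.card = m ∧ g' H} : ℝ) ≤
        Set.ncard {W : Finset ℕ | W ⊆ V ∧ W.card = T ∧ ¬ ∃ H ⊆ W, H.card = m ∧ g H} := by
      rw [Nat.cast_le]
      apply Set.ncard_le_ncard _ (hfin _)
      rintro W ⟨e1, e2, e3⟩
      refine ⟨e1, e2, fun ⟨H, f1, f2, f3⟩ => e3 ⟨H, f1, f2, hg H (f1.trans e1) f2 f3⟩⟩
    refine h5.trans (h1.trans ?_)
    apply mul_le_mul_of_nonneg_right _ (Nat.cast_nonneg _)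
    exact Real.rpow_le_rpow_of_exponent_le (by norm_num) (by linarith)
  · have h5 : (Set.ncard {W : Finset ℕ | W ⊆ V ∧ W.card = T ∧ ∃ H ⊆ W, H.card = m ∧ g H} : ℝ) ≤
        Set.ncard {W : Finset ℕ | W ⊆ V ∧ W.card = T ∧ ∃ H ⊆ W, H.card = m ∧ g' H} := by
      rw [Nat.cast_le]
      apply Set.ncard_le_ncard _ (hfin _)
      rintro W ⟨e1, e2, H, f1, f2, f3⟩
      exact ⟨e1, e2, H, f1, f2, hg H (f1.trans e1) f2 f3⟩
    refine le_trans ?_ ((h2 h3 h4).trans h5)
    apply mul_le_mul_of_nonneg_right _ (Nat.cast_nonneg _)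
    have hC' : 0 < C' := lt_of_lt_of_le hC hCC
    exact pow_le_pow_left₀ (by positivity) hTC m

theorem conv {N : ℕ} {χ : DirichletCharacter ℂ N} {f : ℍ → ℂ} (hf : IsCuspForm N χ f) :
    Pool.Agent.Q84.HW.IsCuspForm N χ f := ⟨hf.holo, hf.slash, hf.zero⟩

/-- few large coefficients -/
theorem few {N : ℕ} (hN : N ≠ 0) {χ : DirichletCharacter ℂ N} {f : ℍ → ℂ} (hf : IsCuspForm N χ f) (K : ℕ) :
    ∀ᶠ X : ℕ in atTop, ∀ S : Finset ℕ, (∀ n ∈ S, (X : ℝ) / Real.log X ^ K ≤ n ∧ n ≤ 2 * X ∧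
      ¬ ‖coeff f n‖ ≤ (n : ℝ) ^ (1 / 4 : ℝ) * Real.log n ^ (K + 1)) →
      (S.card : ℝ) ≤ X / Real.log X ^ K := by
  have : NeZero N := ⟨hN⟩
  obtain ⟨C, hC0, hC⟩ := Pool.Agent.Q84.HW.mean_square (conv hf)
  have e1 := (Real.tendsto_log_atTop.comp (tendsto_natCast_atTop_atTop (R := ℝ))).eventually
    (eventually_ge_atTop (1 + 4 * C * 4 ^ (K + 1)))
  have e2 : ∀ᶠ X : ℕ in atTop, Real.log X ^ (2 * K) ≤ (X : ℝ) := by
    have h := (isLittleO_log_rpow_rpow_atTop (s := 1) ((2 * K : ℕ) : ℝ) one_pos).bound one_pos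
    filter_upwards [(tendsto_natCast_atTop_atTop (R := ℝ)).eventually h] with X hX
    have hl : 0 ≤ Real.log X := Real.log_natCast_nonneg X
    rw [Real.rpow_natCast, Real.norm_eq_abs, Real.norm_eq_abs, one_mul,
      abs_of_nonneg (by positivity), abs_of_nonneg (by positivity), Real.rpow_one] at hX
    exact hX
  filter_upwards [e1, e2, eventually_ge_atTop 1] with X b1 b2 b3
  intro S hS
  obtain ⟨L, hL⟩ : ∃ L : ℝ, L = Real.log X := ⟨_, rfl⟩
  have b1' : 1 + 4 * C * 4 ^ (K + 1) ≤ L := by rw [hL]; exact b1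
  rw [← hL] at b2 hS ⊢
  have hX0 : (0 : ℝ) < X := by exact_mod_cast b3
  have hL1 : 1 ≤ L := by
    have : 0 ≤ 4 * C * 4 ^ (K + 1) := by positivity
    linarith
  have hL0 : 0 < L := by linarith
  have hLK : 0 < L ^ K := by positivity
  obtain ⟨r, hr⟩ : ∃ r : ℝ, r = √(X : ℝ) := ⟨_, rfl⟩
  have hr2 : r * r = X := by rw [hr]; exact Real.mul_self_sqrt hX0.le
  have hr0 : 0 < r := by rw [hr]; positivity
  have hLr : L ^ K ≤ r := by
    rw [hr]
    apply Real.le_sqrt_of_sq_le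
    rw [← pow_mul, mul_comm]
    exact b2
  -- each term
  have hterm : ∀ n ∈ S, r / L ^ K * (L / 2) ^ (2 * (K + 1)) ≤ ‖coeff f n‖ ^ 2 := by
    intro n hn
    obtain ⟨h1, h2, h3⟩ := hS n hn
    have hn0 : (0 : ℝ) < n := lt_of_lt_of_le (by positivity) h1
    have h4 : r ≤ n := by
      refine le_trans ?_ h1
      rw [le_div_iff₀ hLK, ← hr2]
      gcongr
    have h5 : L / 2 ≤ Real.log n := by
      have h6 : (X : ℝ) ≤ (n : ℝ) ^ 2 := by
        rw [← hr2, sq]
        gcongr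
      have h7 := Real.log_le_log hX0 h6
      rw [Real.log_pow] at h7
      push_cast at h7
      rw [← hL] at h7
      linarith
    have h6 : (n : ℝ) ^ (1 / 4 : ℝ) * Real.log n ^ (K + 1) ≤ ‖coeff f n‖ := (not_le.1 h3).le
    have h7 : r / L ^ K ≤ ((n : ℝ) ^ (1 / 4 : ℝ)) ^ 2 := by
      have h8 : ((n : ℝ) ^ (1 / 4 : ℝ)) ^ 2 = √(n : ℝ) := by
        rw [← Real.rpow_natCast, ← Real.rpow_mul hn0.le, Real.sqrt_eq_rpow]
        norm_num
      rw [h8]
      apply Real.le_sqrt_of_sq_le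
      refine le_trans ?_ h1
      rw [div_pow, sq r, hr2]
      apply div_le_div_of_nonneg_left hX0.le hLK
      have : (1 : ℝ) ≤ L ^ K := one_le_pow₀ hL1
      nlinarith
    calc r / L ^ K * (L / 2) ^ (2 * (K + 1)) ≤ ((n : ℝ) ^ (1 / 4 : ℝ)) ^ 2 * Real.log n ^ (2 * (K + 1)) := by
          gcongr
      _ = ((n : ℝ) ^ (1 / 4 : ℝ) * Real.log n ^ (K + 1)) ^ 2 := by
          rw [mul_pow, ← pow_mul, mul_comm (K + 1) 2]
      _ ≤ ‖coeff f n‖ ^ 2 := by
          have : 0 ≤ Real.log n := by linarith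
          gcongr
  have hsum : (S.card : ℝ) * (r / L ^ K * (L / 2) ^ (2 * (K + 1))) ≤ C * ((2 * X : ℕ) : ℝ) ^ (3 / 2 : ℝ) := by
    calc (S.card : ℝ) * (r / L ^ K * (L / 2) ^ (2 * (K + 1))) = ∑ _n ∈ S, r / L ^ K * (L / 2) ^ (2 * (K + 1)) := by
          rw [sum_const, nsmul_eq_mul]
      _ ≤ ∑ n ∈ S, ‖coeff f n‖ ^ 2 := sum_le_sum hterm
      _ ≤ ∑ n ∈ range (2 * X + 1), ‖coeff f n‖ ^ 2 := by
          apply sum_le_sum_of_subset_of_nonneg
          · intro n hn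
            rw [mem_range]
            have := (hS n hn).2.1
            omega
          · intro n _ _
            positivity
      _ ≤ _ := hC (2 * X) (by omega)
  have h32 : ((2 * X : ℕ) : ℝ) ^ (3 / 2 : ℝ) ≤ 4 * (X * r) := by
    have h1 : (3 / 2 : ℝ) = 1 + 1 / 2 := by norm_num
    have h2 : (0 : ℝ) < ((2 * X : ℕ) : ℝ) := by push_cast; linarith
    rw [h1, Real.rpow_add h2, Real.rpow_one, ← Real.sqrt_eq_rpow]
    push_cast
    rw [Real.sqrt_mul (by norm_num), ← hr]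
    have h3 : √(2 : ℝ) ≤ 2 := by
      rw [Real.sqrt_le_iff]
      norm_num
    calc 2 * (X : ℝ) * (√2 * r) ≤ 2 * (X : ℝ) * (2 * r) := by gcongr
      _ = _ := by ring
  have h1 : (S.card : ℝ) * (r / L ^ K * (L / 2) ^ (2 * (K + 1))) ≤ 4 * C * (X * r) := by
    refine hsum.trans ?_
    calc C * ((2 * X : ℕ) : ℝ) ^ (3 / 2 : ℝ) ≤ C * (4 * (X * r)) := by gcongr
      _ = _ := by ring
  have h2 : (S.card : ℝ) * L ^ K * (L ^ 2) ≤ 4 * C * 4 ^ (K + 1) * X := by
    have h3 : (L / 2) ^ (2 * (K + 1)) = L ^ K * L ^ K * L ^ 2 / 4 ^ (K + 1) := by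
      rw [div_pow, pow_mul 2 2 (K + 1)]
      norm_num
      ring
    rw [h3] at h1
    have h4 : (S.card : ℝ) * (r / L ^ K * (L ^ K * L ^ K * L ^ 2 / 4 ^ (K + 1))) =
        r * (S.card * L ^ K * L ^ 2 / 4 ^ (K + 1)) := by
      field_simp
    rw [h4] at h1
    have h5 : r * (S.card * L ^ K * L ^ 2 / 4 ^ (K + 1)) ≤ r * (4 * C * X) := by linarith
    have h6 := le_of_mul_le_mul_left h5 hr0
    rw [div_le_iff₀ (by positivity)] at h6
    linarith
  rw [le_div_iff₀ hLK]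
  have h5 : (S.card : ℝ) * L ^ K * (L ^ 2) ≤ X * L ^ 2 := by
    refine h2.trans ?_
    have h6 : 4 * C * 4 ^ (K + 1) ≤ L ^ 2 := by nlinarith
    calc 4 * C * 4 ^ (K + 1) * X ≤ L ^ 2 * X := by gcongr
      _ = _ := by ring
  exact le_of_mul_le_mul_right h5 (by positivity)

/-- from the number of the realisations to the property `Good` -/
theorem good_of_number (B : ℕ) (V : Finset ℕ) (q a R : ℕ) {r : ℕ} (M : Fin r → ℕ) (hM : ∀ i, M i ≠ 0)
    (χ : ∀ i, DirichletCharacter ℂ (M i)) (f : Fin r → ℍ → ℂ) (hf : ∀ i, IsCuspForm (M i) (χ i) (f i)) :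
    ∀ᶠ X : ℕ in atTop,
    ∀ H ⊆ V, (X : ℝ) / Real.log X ^ B ≤ Pool.Agent.Helper50.TS.number q a R H (X : ℝ) →
      ∀ B' : ℕ, B + 2 ≤ B' → Good B' q a R f X H := by
  classical
  have hfew : ∀ᶠ X : ℕ in atTop, ∀ i, ∀ S : Finset ℕ, (∀ n ∈ S, (X : ℝ) / Real.log X ^ (B + 1) ≤ n ∧ n ≤ 2 * X ∧
      ¬ ‖coeff (f i) n‖ ≤ (n : ℝ) ^ (1 / 4 : ℝ) * Real.log n ^ (B + 1 + 1)) →
      (S.card : ℝ) ≤ X / Real.log X ^ (B + 1) := by
    rw [eventually_all]
    exact fun i => few (hM i) (hf i) (B + 1)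
  have hlog := (Real.tendsto_log_atTop.comp (tendsto_natCast_atTop_atTop (R := ℝ))).eventually
    (eventually_ge_atTop (V.card * r + 3 : ℝ))
  have e2 : ∀ᶠ X : ℕ in atTop, Real.log X ^ (2 * (B + 1)) ≤ (X : ℝ) := by
    have h := (isLittleO_log_rpow_rpow_atTop (s := 1) ((2 * (B + 1) : ℕ) : ℝ) one_pos).bound one_pos
    filter_upwards [(tendsto_natCast_atTop_atTop (R := ℝ)).eventually h] with X hX
    have hl : 0 ≤ Real.log X := Real.log_natCast_nonneg X
    rw [Real.rpow_natCast, Real.norm_eq_abs, Real.norm_eq_abs, one_mul,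
      abs_of_nonneg (by positivity), abs_of_nonneg (by positivity), Real.rpow_one] at hX
    exact hX
  filter_upwards [hfew, hlog, e2, eventually_ge_atTop (V.sup id + 1)] with X b1 b2 b4 b3
  intro H hHV hnum B' hB'
  have b2' : (V.card : ℝ) * r + 3 ≤ Real.log X := b2
  obtain ⟨L, hL⟩ : ∃ L : ℝ, L = Real.log X := ⟨_, rfl⟩
  unfold Good
  rw [← hL] at b1 b2' b4 hnum ⊢
  have hVr : (0 : ℝ) ≤ V.card * r := by positivity
  have hL0 : 0 < L := by linarith
  have hL1 : 1 ≤ L := by linarith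
  have hX0 : (0 : ℝ) < X := by
    have : 0 < X := by omega
    exact_mod_cast this
  obtain ⟨z, hz⟩ : ∃ z : ℝ, z = X / L ^ (B + 1) := ⟨_, rfl⟩
  rw [← hz] at b1
  have hz0 : 0 < z := by rw [hz]; positivity
  have hLz : L ^ (B + 1) * z = X := by rw [hz]; field_simp
  have hLK1 : 1 ≤ L ^ (B + 1) := one_le_pow₀ hL1
  have hzL : L ^ (B + 1) ≤ z := by
    rw [hz, le_div_iff₀ (by positivity), ← pow_add]
    have : B + 1 + (B + 1) = 2 * (B + 1) := by ring
    rw [this]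
    exact b4
  have hz1 : 1 ≤ z := hLK1.trans hzL
  obtain ⟨A, hA⟩ : ∃ A : Finset ℕ, A = (range (X + 1)).filter
      (fun n => Pool.Agent.Helper50.TS.Consec q a R H n) := ⟨_, rfl⟩
  have hAc : Pool.Agent.Helper50.TS.number q a R H (X : ℝ) = A.card := by
    unfold Pool.Agent.Helper50.TS.number
    rw [← Set.ncard_coe_finset]
    congr 1
    ext n
    simp only [Set.mem_ofPred_eq, hA, coe_filter, mem_range, Nat.cast_le, Nat.lt_succ_iff]
  obtain ⟨bd, hbd⟩ : ∃ bd : Fin r → ℕ → Prop, bd = fun i n => ‖coeff (f i) n‖ ≤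
      (n : ℝ) ^ (1 / 4 : ℝ) * Real.log n ^ (B + 1 + 1) := ⟨_, rfl⟩
  have hbd' : ∀ i n, bd i n ↔ ‖coeff (f i) n‖ ≤ (n : ℝ) ^ (1 / 4 : ℝ) * Real.log n ^ (B + 1 + 1) := by
    intro i n
    rw [hbd]
  obtain ⟨G, hG⟩ : ∃ G : Finset ℕ, G = A.filter (fun n : ℕ => z ≤ (n : ℝ) ∧ ∀ u ∈ H, ∀ i, bd i (n + u)) := ⟨_, rfl⟩
  have hbad : ∀ u ∈ H, ∀ i, ((A.filter (fun n : ℕ => z ≤ (n : ℝ) ∧ ¬ bd i (n + u))).card : ℝ) ≤ z := by
    intro u hu i
    have h1 := b1 i ((A.filter (fun n : ℕ => z ≤ (n : ℝ) ∧ ¬ bd i (n + u))).image (fun n => n + u))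
      (fun p hp => by
        obtain ⟨n, hn, rfl⟩ := mem_image.1 hp
        rw [mem_filter, hA, mem_filter, mem_range] at hn
        obtain ⟨⟨h2, h3⟩, h4, h5⟩ := hn
        rw [hbd'] at h5
        refine ⟨?_, ?_, h5⟩
        · push_cast
          have : (0 : ℝ) ≤ u := Nat.cast_nonneg _
          linarith
        · have h5 : u ≤ V.sup id := le_sup (f := id) (hHV hu)
          omega)
    rwa [card_image_of_injective _ (add_left_injective u)] at h1
  have hcov : A ⊆ (G ∪ (range (⌊z⌋₊ + 1))) ∪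
      (H ×ˢ (univ : Finset (Fin r))).biUnion (fun w => A.filter (fun n : ℕ => z ≤ (n : ℝ) ∧ ¬ bd w.2 (n + w.1))) := by
    intro n hn
    by_cases hzn : z ≤ n
    · by_cases hall : ∀ u ∈ H, ∀ i, bd i (n + u)
      · exact mem_union_left _ (mem_union_left _ (by rw [hG, mem_filter]; exact ⟨hn, hzn, hall⟩))
      · push Not at hall
        obtain ⟨u, hu, i, hu2⟩ := hall
        exact mem_union_right _ (mem_biUnion.2 ⟨(u, i), mem_product.2 ⟨hu, mem_univ _⟩,
          mem_filter.2 ⟨hn, hzn, hu2⟩⟩)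
    · refine mem_union_left _ (mem_union_right _ ?_)
      rw [mem_range, Nat.lt_succ_iff]
      exact Nat.le_floor (not_le.1 hzn).le
  have hcard : (A.card : ℝ) ≤ G.card + (z + 1) + V.card * r * z := by
    have h1 : A.card ≤ (G.card + (⌊z⌋₊ + 1)) + ∑ w ∈ H ×ˢ (univ : Finset (Fin r)),
        (A.filter (fun n : ℕ => z ≤ (n : ℝ) ∧ ¬ bd w.2 (n + w.1))).card := by
      refine (card_le_card hcov).trans ((card_union_le _ _).trans (Nat.add_le_add ?_ card_biUnion_le))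
      refine (card_union_le _ _).trans (Nat.add_le_add_left ?_ _)
      rw [card_range]
    have h2 : (∑ w ∈ H ×ˢ (univ : Finset (Fin r)),
        ((A.filter (fun n : ℕ => z ≤ (n : ℝ) ∧ ¬ bd w.2 (n + w.1))).card : ℝ)) ≤ V.card * r * z := by
      calc _ ≤ ∑ _w ∈ H ×ˢ (univ : Finset (Fin r)), z :=
            sum_le_sum fun w hw => hbad w.1 (mem_product.1 hw).1 w.2
        _ = H.card * r * z := by
            rw [sum_const, nsmul_eq_mul, card_product, card_univ, Fintype.card_fin]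
            push_cast
            ring
        _ ≤ _ := by
            have : (H.card : ℝ) ≤ V.card := by exact_mod_cast card_le_card hHV
            gcongr
    have h3 : (A.card : ℝ) ≤ (G.card + ((⌊z⌋₊ : ℝ) + 1)) + ∑ w ∈ H ×ˢ (univ : Finset (Fin r)),
        ((A.filter (fun n : ℕ => z ≤ (n : ℝ) ∧ ¬ bd w.2 (n + w.1))).card : ℝ) := by exact_mod_cast h1
    have h4 : (⌊z⌋₊ : ℝ) ≤ z := Nat.floor_le hz0.le
    linarith
  rw [hAc] at hnum
  have hfin : {t : ℕ | t ≤ X ∧ t ≡ a [MOD q] ∧ Consecutive R H t ∧ ∀ u ∈ H, ∀ i,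
      ‖coeff (f i) (t + u)‖ ≤ ((t + u : ℕ) : ℝ) ^ (1 / 4 : ℝ) * Real.log ((t + u : ℕ) : ℝ) ^ B'}.Finite :=
    (Set.finite_Iic X).subset fun t ht => ht.1
  have hsub : (G : Set ℕ) ⊆ {t : ℕ | t ≤ X ∧ t ≡ a [MOD q] ∧ Consecutive R H t ∧ ∀ u ∈ H, ∀ i,
      ‖coeff (f i) (t + u)‖ ≤ ((t + u : ℕ) : ℝ) ^ (1 / 4 : ℝ) * Real.log ((t + u : ℕ) : ℝ) ^ B'} := by
    intro t ht
    rw [mem_coe, hG, mem_filter, hA, mem_filter, mem_range] at ht
    obtain ⟨⟨h1, h2⟩, h3, h4⟩ := ht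
    refine ⟨by omega, h2.1, ⟨h2.2.1, h2.2.2⟩, fun u hu i => ?_⟩
    refine ((hbd' _ _).1 (h4 u hu i)).trans ?_
    have h5 : 1 ≤ Real.log ((t + u : ℕ) : ℝ) := by
      have h6 : (X : ℝ) ≤ (t : ℝ) ^ 2 := by
        rw [← hLz, sq]
        exact mul_le_mul (hzL.trans h3) h3 hz0.le (by positivity)
      have h7 := Real.log_le_log hX0 h6
      rw [Real.log_pow] at h7
      push_cast at h7
      rw [← hL] at h7
      have h8 : Real.log t ≤ Real.log ((t + u : ℕ) : ℝ) := by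
        apply Real.log_le_log (lt_of_lt_of_le hz0 h3)
        push_cast
        have : (0 : ℝ) ≤ u := Nat.cast_nonneg _
        linarith
      linarith
    apply mul_le_mul_of_nonneg_left _ (by positivity)
    exact pow_le_pow_right₀ h5 (by omega)
  have h1 := Set.ncard_le_ncard hsub hfin
  rw [Set.ncard_coe_finset] at h1
  refine le_trans ?_ (Nat.cast_le.2 h1)
  have h3 : (X : ℝ) / L ^ B' ≤ z := by
    rw [hz]
    exact div_le_div_of_nonneg_left hX0.le (by positivity) (pow_le_pow_right₀ hL1 (by omega))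
  have h4 : (X : ℝ) / L ^ B = L * z := by
    rw [hz, pow_succ]
    field_simp
  rw [h4] at hnum
  have h5 : L * z ≥ (V.card * r + 3) * z := by gcongr
  nlinarith

/-- **The Ramanujan bound at consecutive primes at every large scale.** For every `ε > 0` there is `C` such that for every
`m ≥ 1` there is `B` such that for every admissible `V` with `log |V| ≥ (4 + ε) m + C`, all `q`, `a` such that the
`a + v`, `v ∈ V`, are prime to `q`, all finite families of cusp forms `f i` of weight `3/2` of levels `M i` and characters `χ i`, all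
`R` and every sufficiently large `X`:
(1) some distribution `μ` as in `Spread` on the subsets of `V` has only values with the property `Good`;
(2) almost all subsets of `V` with about `m²` elements contain an `m`-element set with the property `Good` (`Typical`). -/
theorem result (ε : ℝ) (hε : 0 < ε) : ∃ C : ℝ, 0 < C ∧ ∀ m : ℕ, 1 ≤ m → ∃ B : ℕ,
    ∀ V : Finset ℕ, (4 + ε) * m + C ≤ Real.log V.card → Admissible V →
    ∀ q a : ℕ, 1 ≤ q → (∀ v ∈ V, Nat.Coprime (a + v) q) →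
    ∀ (r : ℕ) (M : Fin r → ℕ) (χ : ∀ i, DirichletCharacter ℂ (M i)) (f : Fin r → ℍ → ℂ),
      (∀ i, M i ≠ 0) → (∀ i, IsCuspForm (M i) (χ i) (f i)) → ∀ R : ℕ, ∀ᶠ X : ℕ in atTop,
      (∃ μ : Finset ℕ → ℝ, Spread C m V μ ∧ ∀ P, μ P ≠ 0 → Good B q a R f X P) ∧
      Typical C m V (Good B q a R f X) := by
  classical
  obtain ⟨C₁, hC₁, h1⟩ := Pool.Agent.Helper50.SP.main ε hε
  obtain ⟨C₂, hC₂, h2⟩ := Pool.Agent.Helper50.TS.final ε hε
  refine ⟨max C₁ C₂, lt_max_of_lt_left hC₁, fun m hm => ?_⟩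
  obtain ⟨B₁, hB₁⟩ := h1 m hm
  obtain ⟨B₂, hB₂⟩ := h2 m hm
  refine ⟨max B₁ B₂ + 2, fun V hV hadm q a hq hcop r M χ f hM hf R => ?_⟩
  have hV1 : (4 + ε) * m + C₁ ≤ Real.log V.card :=
    le_trans (by linarith [le_max_left C₁ C₂]) hV
  have hV2 : (4 + ε) * m + C₂ ≤ Real.log V.card :=
    le_trans (by linarith [le_max_right C₁ C₂]) hV
  have hten : Tendsto (fun N : ℕ => (N : ℝ)) atTop atTop := tendsto_natCast_atTop_atTop
  filter_upwards [good_of_number B₁ V q a R M hM χ f hf, good_of_number B₂ V q a R M hM χ f hf,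
    hten.eventually ((hB₁ V hV1 hadm q a hq hcop).1 R),
    hten.eventually ((hB₂ V hV2 hadm q a hq hcop).1 R)] with N g3 g4 g5 g6
  constructor
  · obtain ⟨μ, hμ, hμ2⟩ := g5
    refine ⟨μ, spread_mono hC₁.le (le_max_left _ _) hμ, fun P hP => ?_⟩
    obtain ⟨hPV, hPm⟩ := hμ.2.1 P hP
    refine g3 P hPV ((hμ2 P hP).trans ?_) _ (by omega)
    exact_mod_cast Pool.Agent.Helper50.TS.count_le_number (Subset.refl P) (fun _ _ q hq _ => hq) _
  · exact typical_mono hC₂ (le_max_right _ _) hm (fun H hHV hHm hH =>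
      g4 H hHV hH _ (by omega)) g6

end Pool.Agent.Results.MP_af11aa_nt.ConsecutivePrimes
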