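import Pool.Agent.Helper78.LS.HeckeSum

/-!
# Hecke eigenforms of weight 3/2: coefficients below the Ramanujan size for small indices

For `f` in `S_{3/2}(24 p, χ)` which is an eigenform of all `T(ℓ²)`, `ℓ ∤ 6 p`, and `1 ≤ T ≤ p`: the sum of `|a_f(t)|² / √t` over ALL
squarefree `t ≤ T` is at most `840 (1 + log(p/T) / 4) (T/p)^(1/4) ⟨f, f⟩`; in particular
`|a_f(t)|² ≤ 840 (1 + log(p/t) / 4) (t/p)^(1/4) √t ⟨f, f⟩` for each squarefree `t ≤ p`.

Method: the large sieve inequality of `UniformLargeSieve` for one form, and amplification: for each prime `ℓ` and each squarefree `t` one of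
`a_f(t ℓ²)`, `a_f(t ℓ⁴)` has at least the size which the factor `√n` predicts.
-/

set_option autoImplicit false

open scoped MatrixGroups ComplexConjugate

namespace Pool.Agent.Results.MP_af11aa_nt.EigenformsSmallIndices

open UpperHalfPlane CongruenceSubgroup MeasureTheory

/-- `ε_d` for odd `d`: `1` if `d ≡ 1 mod 4`, `i` if `d ≡ 3 mod 4` -/
noncomputable def eps (d : ℤ) : ℂ := if d % 4 = 1 then 1 else Complex.I

/-- Shimura's symbol `(c/d)`, `d` odd -/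
def sym (c d : ℤ) : ℤ := if c < 0 ∧ d < 0 then -jacobiSym c d.natAbs else jacobiSym c d.natAbs

/-- the theta multiplier `j(γ, z) = ε_d⁻¹ (c/d) (c z + d) ^ (1/2)` -/
noncomputable def j (γ : SL(2, ℤ)) (z : ℍ) : ℂ :=
  (eps (γ 1 1))⁻¹ * (sym (γ 1 0) (γ 1 1) : ℂ) * ((γ 1 0 : ℂ) * z + (γ 1 1 : ℂ)) ^ (1 / 2 : ℂ)

/-- `f` is a cusp form of weight `3/2` on `Γ₀(N)` with character `χ`: holomorphic,
`f(γ z) = χ(d) j(γ, z) ^ 3 f(z)` for `γ` in `Γ₀(N)`, and `f(σ z) (c z + d) ^ (-3/2)` tends to `0` for `Im z → ∞`, for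
every `σ` in `SL₂(ℤ)` -/
structure IsCuspForm (N : ℕ) (χ : DirichletCharacter ℂ N) (f : ℍ → ℂ) : Prop where
  holo : MDifferentiable (modelWithCornersSelf ℂ ℂ) (modelWithCornersSelf ℂ ℂ) f
  slash : ∀ γ ∈ Gamma0 N, ∀ z : ℍ, f (γ • z) = χ ((γ 1 1 : ℤ) : ZMod N) * j γ z ^ 3 * f z
  zero : ∀ σ : SL(2, ℤ), IsZeroAtImInfty fun z : ℍ => f (σ • z) * ((σ 1 0 : ℂ) * z + (σ 1 1 : ℂ)) ^ (-(3 / 2) : ℂ)

/-- the coefficient `a_f(n)` of `e^(2 π i n z)` -/
noncomputable def coeff (f : ℍ → ℂ) (n : ℕ) : ℂ := (qExpansion 1 f).coeff n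

/-- `F` is a measurable strict fundamental domain of `Γ₀(N)`: every orbit meets `F`, and two points of `F` in one orbit are equal -/
structure IsFD (N : ℕ) (F : Set ℍ) : Prop where
  meas : MeasurableSet F
  strict : ∀ γ ∈ Gamma0 N, ∀ z ∈ F, γ • z ∈ F → γ • z = z
  cover : ∀ z : ℍ, ∃ γ ∈ Gamma0 N, γ • z ∈ F

/-- the density `f(z) conj(g(z)) y^(3/2)`, `y = Im z` -/
noncomputable def dens (f g : ℍ → ℂ) (z : ℍ) : ℂ := f z * conj (g z) * ((z.im ^ (3 / 2 : ℝ) : ℝ) : ℂ)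

/-- the Petersson product `⟨f, g⟩ = ∫_F f(z) conj(g(z)) y^(3/2) dμ(z)`, `μ` = hyperbolic measure `dx dy / y²` (Mathlib's
`volume` on `ℍ`) -/
noncomputable def ip (F : Set ℍ) (f g : ℍ → ℂ) : ℂ := ∫ z in F, dens f g z

/-- `f` is an eigenform of `T(ℓ²)` for all primes `ℓ` not dividing `N`. The `n`-th coefficient of `T(ℓ²) f` is (Shimura)
`a_f(ℓ² n) + χ(ℓ) (-n/ℓ) a_f(n) + χ(ℓ²) ℓ a_f(n/ℓ²)`, the last term being `0` if `ℓ²` does not divide `n` -/
def IsHeckeEigenform (N : ℕ) (χ : DirichletCharacter ℂ N) (f : ℍ → ℂ) : Prop :=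
  ∀ l : ℕ, l.Prime → ¬ l ∣ N → ∃ ω : ℂ, ∀ n : ℕ, 1 ≤ n →
    coeff f (l ^ 2 * n) + χ (l : ZMod N) * (jacobiSym (-(n : ℤ)) l : ℂ) * coeff f n +
      χ (l : ZMod N) ^ 2 * l * (if l ^ 2 ∣ n then coeff f (n / l ^ 2) else 0) = ω * coeff f n

theorem conv {N : ℕ} {χ : DirichletCharacter ℂ N} {f : ℍ → ℂ} (hf : IsCuspForm N χ f) :
    Pool.Agent.Q84.HW.IsCuspForm N χ f := ⟨hf.holo, hf.slash, hf.zero⟩

theorem ip_self {F : Set ℍ} (hF : MeasurableSet F) (f : ℍ → ℂ) :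
    ∫ z in F, Pool.Agent.Helper78.LS.dens f z = ‖ip F f f‖ := by
  have e1 : ip F f f = ((∫ z in F, Pool.Agent.Helper78.LS.dens f z : ℝ) : ℂ) := by
    rw [← integral_complex_ofReal]
    unfold ip
    refine integral_congr_ae (Filter.Eventually.of_forall fun z => ?_)
    exact Pool.Agent.Helper78.LS.pd_self f z
  rw [e1, Complex.norm_real, Real.norm_of_nonneg]
  exact setIntegral_nonneg hF fun z _ => Pool.Agent.Helper78.LS.dens_nonneg f z

/-- the sum of `|a_f(t)|² / √t` over the squarefree numbers `1 ≤ t ≤ T` -/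
noncomputable def mass (f : ℍ → ℂ) (T : ℕ) : ℝ :=
  ∑ t ∈ (Finset.Icc 1 T).filter (fun t => Squarefree t), ‖coeff f t‖ ^ 2 / √(t : ℝ)

theorem amp {N : ℕ} {χ : DirichletCharacter ℂ N} {F : Set ℍ} {f : ℍ → ℂ} (hN : 0 < N) (hF : IsFD N F)
    (hf : IsCuspForm N χ f) (hH : IsHeckeEigenform N χ f) (T L : ℕ) :
    mass f T * ((Finset.Icc 4 L).filter fun l => l.Prime ∧ ¬ l ∣ N).card ≤
      16 * (1 + 192 * (T * L ^ 4) / N) * ‖ip F f f‖ := by
  have : NeZero N := ⟨hN.ne'⟩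
  have h := Pool.Agent.Helper78.LS.amplified_sum (conv hf) hF.meas
    (Pool.Agent.Helper78.LS.vol_fin hF.meas hF.strict) hF.cover hH T L
  rw [ip_self hF.meas] at h
  exact h

theorem trivial_bound {p : ℕ} {χ : DirichletCharacter ℂ (24 * p)} {F : Set ℍ} {f : ℍ → ℂ} (hp : p.Prime)
    (hF : IsFD (24 * p) F) (hf : IsCuspForm (24 * p) χ f) {T : ℕ} (hT : 1 ≤ T) (hTp : T ≤ p) :
    mass f T ≤ 36 * ‖ip F f f‖ := by
  have hN : 0 < 24 * p := by have := hp.pos; omega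
  have : NeZero (24 * p) := ⟨hN.ne'⟩
  have hp0 : (0:ℝ) < p := by exact_mod_cast hp.pos
  have hTpr : (T:ℝ) ≤ p := by exact_mod_cast hTp
  have h := Pool.Agent.Helper78.LS.trivial_sum (conv hf) hF.meas
    (Pool.Agent.Helper78.LS.vol_fin hF.meas hF.strict) hF.cover hT
  rw [ip_self hF.meas] at h
  refine h.trans ?_
  refine mul_le_mul_of_nonneg_right ?_ (norm_nonneg _)
  have : 192 * (T:ℝ) / ((24 * p : ℕ) : ℝ) ≤ 8 := by
    push_cast
    rw [div_le_iff₀ (by positivity)]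
    linarith
  linarith

theorem mass_nonneg (f : ℍ → ℂ) (T : ℕ) : 0 ≤ mass f T :=
  Finset.sum_nonneg fun _ _ => by positivity

theorem single_le (f : ℍ → ℂ) {t : ℕ} (ht : Squarefree t) : ‖coeff f t‖ ^ 2 ≤ mass f t * √(t : ℝ) := by
  have ht1 : 1 ≤ t := Nat.pos_of_ne_zero ht.ne_zero
  have ht0 : (0:ℝ) < t := by exact_mod_cast ht1
  have hs : 0 < √(t:ℝ) := Real.sqrt_pos.2 ht0
  have h : ‖coeff f t‖ ^ 2 / √(t : ℝ) ≤ mass f t := by
    refine Finset.single_le_sum (f := fun t : ℕ => ‖coeff f t‖ ^ 2 / √(t : ℝ)) (fun _ _ => by positivity) ?_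
    rw [Finset.mem_filter, Finset.mem_Icc]
    exact ⟨⟨ht1, le_rfl⟩, ht⟩
  rwa [div_le_iff₀ hs] at h

theorem primes_le {p L : ℕ} (hp : p.Prime) (hLp : L < p) :
    Nat.primeCounting L ≤ ((Finset.Icc 4 L).filter fun l => l.Prime ∧ ¬ l ∣ 24 * p).card + 2 := by
  have h1 : Nat.primeCounting L = ((Finset.range (L + 1)).filter Nat.Prime).card := by
    rw [Nat.primeCounting, Nat.primeCounting', Nat.count_eq_card_filter_range]
  have h2 : (Finset.range (L + 1)).filter Nat.Prime ⊆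
      ((Finset.Icc 4 L).filter fun l => l.Prime ∧ ¬ l ∣ 24 * p) ∪ {2, 3} := by
    intro l hl
    rw [Finset.mem_filter, Finset.mem_range] at hl
    obtain ⟨hlL, hlp⟩ := hl
    rw [Finset.mem_union, Finset.mem_filter, Finset.mem_Icc]
    by_cases h23 : l = 2 ∨ l = 3
    · right
      simpa using h23
    · left
      have h2 := hlp.two_le
      refine ⟨⟨by omega, by omega⟩, hlp, fun hd => ?_⟩
      rcases hlp.dvd_mul.1 hd with hd | hd
      · have h24 : (24 : ℕ) = 2 ^ 3 * 3 := by norm_num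
        rw [h24] at hd
        rcases hlp.dvd_mul.1 hd with hd | hd
        · exact h23 (Or.inl ((Nat.prime_dvd_prime_iff_eq hlp Nat.prime_two).1 (hlp.dvd_of_dvd_pow hd)))
        · exact h23 (Or.inr ((Nat.prime_dvd_prime_iff_eq hlp Nat.prime_three).1 hd))
      · have := (Nat.prime_dvd_prime_iff_eq hlp hp).1 hd
        omega
  have h3 := Finset.card_le_card h2
  have h4 := Finset.card_union_le ((Finset.Icc 4 L).filter fun l => l.Prime ∧ ¬ l ∣ 24 * p) {2, 3}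
  have h5 : ({2, 3} : Finset ℕ).card = 2 := rfl
  omega

theorem pi_lower {X : ℝ} (hX : 1 ≤ X) :
    3 / 10 * X ≤ (Nat.primeCounting ⌊X⌋₊ + 1) * (1 + Real.log X) := by
  set L := ⌊X⌋₊ with hL
  have hL1 : 1 ≤ L := by
    rw [hL]
    exact (Nat.one_le_floor_iff X).2 hX
  have hL0 : (1:ℝ) ≤ L := by exact_mod_cast hL1
  have hLX : (L:ℝ) ≤ X := Nat.floor_le (by linarith)
  have hXL : X < L + 1 := Nat.lt_floor_add_one X
  have h1 := Chebyshev.psi_ge L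
  have h2 := Chebyshev.psi_le_primeCounting_mul_log L
  have h3 : Real.log L ≤ Real.log X := Real.log_le_log (by linarith) hLX
  have h4 : Real.log (L + 1) ≤ Real.log 2 + Real.log L := by
    rw [← Real.log_mul (by norm_num) (by linarith)]
    exact Real.log_le_log (by linarith) (by linarith)
  have h5 : 0 ≤ Real.log X := Real.log_nonneg hX
  have hpi : (0:ℝ) ≤ Nat.primeCounting L := Nat.cast_nonneg _
  have h6 : (Nat.primeCounting L : ℝ) * Real.log L ≤ Nat.primeCounting L * Real.log X :=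
    mul_le_mul_of_nonneg_left h3 hpi
  have h7 := Real.log_two_gt_d9
  have h8 := Real.log_two_lt_d9
  nlinarith

/-- the bound at level `24 p` -/
theorem level {p : ℕ} {χ : DirichletCharacter ℂ (24 * p)} {F : Set ℍ} {f : ℍ → ℂ} (hp : p.Prime)
    (hF : IsFD (24 * p) F) (hf : IsCuspForm (24 * p) χ f) (hH : IsHeckeEigenform (24 * p) χ f) {T : ℕ}
    (ht1 : 1 ≤ T) (htp : T ≤ p) :
    mass f T ≤ 840 * (1 + Real.log (p / T) / 4) * ((T : ℝ) / p) ^ (1 / 4 : ℝ) * ‖ip F f f‖ := by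
  have hp0 : (0:ℝ) < p := by exact_mod_cast hp.pos
  have ht0 : (0:ℝ) < T := by exact_mod_cast ht1
  have htpr : (T:ℝ) ≤ p := by exact_mod_cast htp
  obtain ⟨X, hX⟩ : ∃ X : ℝ, X = ((p:ℝ) / T) ^ (1 / 4 : ℝ) := ⟨_, rfl⟩
  have hpt : 1 ≤ (p:ℝ) / T := by rw [le_div_iff₀ ht0]; linarith
  have hX1 : 1 ≤ X := by rw [hX]; exact Real.one_le_rpow hpt (by norm_num)
  have hX4 : X ^ 4 = p / T := by
    rw [hX, ← Real.rpow_natCast, ← Real.rpow_mul (by positivity)]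
    norm_num
  have hlogX : Real.log X = Real.log (p / T) / 4 := by
    rw [hX, Real.log_rpow (by positivity)]
    ring
  have hXinv : ((T : ℝ) / p) ^ (1 / 4 : ℝ) = X⁻¹ := by
    rw [hX, ← Real.inv_rpow (by positivity), inv_div]
  rw [hXinv, ← hlogX]
  have hLX : (⌊X⌋₊ : ℝ) ≤ X := Nat.floor_le (by linarith)
  have hL4 : (T:ℝ) * (⌊X⌋₊ : ℝ) ^ 4 ≤ p := by
    have h1 : (⌊X⌋₊ : ℝ) ^ 4 ≤ p / T := by
      rw [← hX4]
      exact pow_le_pow_left₀ (Nat.cast_nonneg _) hLX 4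
    rw [le_div_iff₀ ht0] at h1
    linarith
  have hLp : ⌊X⌋₊ < p := by
    by_contra hcon
    push Not at hcon
    have h1 : p ^ 4 ≤ p := by
      have h2 : (p:ℝ) ^ 4 ≤ p := by
        have h3 : (p:ℝ) ≤ (⌊X⌋₊ : ℝ) := by exact_mod_cast hcon
        have h4 : (p:ℝ) ^ 4 ≤ (⌊X⌋₊ : ℝ) ^ 4 := pow_le_pow_left₀ hp0.le h3 4
        have h5 : (1:ℝ) ≤ T := by exact_mod_cast ht1
        nlinarith [pow_nonneg (Nat.cast_nonneg (α := ℝ) ⌊X⌋₊) 4]
      exact_mod_cast h2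
    have h2 := hp.two_le
    have h3 : p ^ 1 < p ^ 4 := Nat.pow_lt_pow_right hp.one_lt (by norm_num)
    rw [pow_one] at h3
    omega
  have hN : 0 < 24 * p := by have := hp.pos; omega
  have h1 := amp hN hF hf hH T ⌊X⌋₊
  have h2 := trivial_bound hp hF hf ht1 htp
  have h3 := primes_le hp hLp
  have h3r : (Nat.primeCounting ⌊X⌋₊ : ℝ) ≤ (((Finset.Icc 4 ⌊X⌋₊).filter fun l => l.Prime ∧ ¬ l ∣ 24 * p).card : ℝ) + 2 := by
    exact_mod_cast h3
  have h4 := pi_lower hX1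
  have hI := norm_nonneg (ip F f f)
  have h5 : 16 * (1 + 192 * ((T:ℝ) * (⌊X⌋₊ : ℝ) ^ 4) / ((24 * p : ℕ) : ℝ)) ≤ 144 := by
    have : 192 * ((T:ℝ) * (⌊X⌋₊ : ℝ) ^ 4) / ((24 * p : ℕ) : ℝ) ≤ 8 := by
      push_cast
      rw [div_le_iff₀ (by positivity)]
      linarith
    linarith
  have h6 : mass f T * ((Finset.Icc 4 ⌊X⌋₊).filter fun l => l.Prime ∧ ¬ l ∣ 24 * p).card ≤
      144 * ‖ip F f f‖ := h1.trans (mul_le_mul_of_nonneg_right h5 hI)
  obtain ⟨A, hA⟩ : ∃ A : ℝ, A = mass f T := ⟨_, rfl⟩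
  have hA0 : 0 ≤ A := by rw [hA]; exact mass_nonneg f T
  obtain ⟨B, hB⟩ : ∃ B : ℝ, B = ‖ip F f f‖ := ⟨_, rfl⟩
  have hB0 : 0 ≤ B := by rw [hB]; positivity
  obtain ⟨P, hP⟩ : ∃ P : ℝ, P = (Nat.primeCounting ⌊X⌋₊ : ℝ) := ⟨_, rfl⟩
  have h7 : A * (P + 1) ≤ 252 * B := by
    have e1 : A * (P + 1) ≤ A * ((((Finset.Icc 4 ⌊X⌋₊).filter fun l => l.Prime ∧ ¬ l ∣ 24 * p).card : ℝ) + 3) := by
      refine mul_le_mul_of_nonneg_left ?_ hA0
      rw [hP]; linarith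
    rw [← hA, ← hB] at h2 h6
    nlinarith
  have hlog0 : 0 ≤ Real.log X := Real.log_nonneg hX1
  have h8 : A * (3 / 10 * X) ≤ 252 * B * (1 + Real.log X) := by
    calc A * (3 / 10 * X) ≤ A * ((P + 1) * (1 + Real.log X)) := by
          refine mul_le_mul_of_nonneg_left ?_ hA0
          rw [hP]; exact h4
      _ = (A * (P + 1)) * (1 + Real.log X) := by ring
      _ ≤ _ := mul_le_mul_of_nonneg_right h7 (by linarith)
  have hX0 : 0 < X := by linarith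
  rw [← hA, ← hB]
  have e2 : 840 * (1 + Real.log X) * X⁻¹ * B = (840 * (1 + Real.log X) * B) / X := by
    field_simp
  rw [e2, le_div_iff₀ hX0]
  linarith

/-- **Theorem.** -/
theorem result :
    -- every level
    (∀ (N : ℕ) (χ : DirichletCharacter ℂ N) (F : Set ℍ) (f : ℍ → ℂ), 0 < N → IsFD N F → IsCuspForm N χ f →
      IsHeckeEigenform N χ f → ∀ T L : ℕ,
        mass f T * ((Finset.Icc 4 L).filter fun l => l.Prime ∧ ¬ l ∣ N).card ≤
          16 * (1 + 192 * (T * L ^ 4) / N) * ‖ip F f f‖) ∧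
    -- level `24 p`
    (∀ (p : ℕ) (χ : DirichletCharacter ℂ (24 * p)) (F : Set ℍ) (f : ℍ → ℂ), p.Prime → IsFD (24 * p) F →
      IsCuspForm (24 * p) χ f → IsHeckeEigenform (24 * p) χ f →
      -- all squarefree numbers `t ≤ T` together
      (∀ T : ℕ, 1 ≤ T → T ≤ p →
        mass f T ≤ 840 * (1 + Real.log (p / T) / 4) * ((T : ℝ) / p) ^ (1 / 4 : ℝ) * ‖ip F f f‖) ∧
      -- each squarefree number `t ≤ p`
      (∀ t : ℕ, Squarefree t → t ≤ p →
        ‖coeff f t‖ ^ 2 ≤ 840 * (1 + Real.log (p / t) / 4) * ((t : ℝ) / p) ^ (1 / 4 : ℝ) * √t * ‖ip F f f‖)) := by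
  refine ⟨fun N χ F f hN hF hf hH T L => amp hN hF hf hH T L, fun p χ F f hp hF hf hH =>
    ⟨fun T hT hTp => level hp hF hf hH hT hTp, fun t ht htp => ?_⟩⟩
  have ht1 : 1 ≤ t := Nat.pos_of_ne_zero ht.ne_zero
  refine (single_le f ht).trans ?_
  refine (mul_le_mul_of_nonneg_right (level hp hF hf hH ht1 htp) (Real.sqrt_nonneg _)).trans (le_of_eq ?_)
  ring

end Pool.Agent.Results.MP_af11aa_nt.EigenformsSmallIndices
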