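import Pool.Agent.Helper78.LS.Fam

/-!
# A uniform large sieve inequality for the coefficients of cusp forms of weight 3/2

For orthonormal families `f_1, …, f_K` of cusp forms of weight `3/2` on `Γ₀(N)` with character `χ` (Shimura's normalisation, `4 ∣ N`),
`∑_k |∑_n b_n a_k(n)|² ≤ (1 + 3 / (N Y)) ∑_n |b_n|² / w_n(Y)` for all `Y > 0`, with the factor `1` instead of `1 + 3 / (N Y)` if `Y > 1 / N`;
here `w_n(Y) = ∫_Y^∞ exp(-4 π n v) v^(-1/2) dv`. So the sum over `n ≤ X` has the bounds `(4 + 768 X / N) ∑ √n |b_n|²` and, for `16 X < N`,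
`2 / (1 - 4 √(X / N)) ∑ √n |b_n|²` (the constant `2` is that of Petersson's formula).
-/

set_option autoImplicit false

open scoped MatrixGroups ComplexConjugate

namespace Pool.Agent.Results.MP_af11aa_nt.UniformLargeSieve

open UpperHalfPlane CongruenceSubgroup MeasureTheory

/-- `ε_d` for odd `d`: `1` if `d ≡ 1 mod 4`, `i` if `d ≡ 3 mod 4` -/
noncomputable def eps (d : ℤ) : ℂ := if d % 4 = 1 then 1 else Complex.I

/-- Shimura's symbol `(c/d)`, `d` odd -/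
def sym (c d : ℤ) : ℤ := if c < 0 ∧ d < 0 then -jacobiSym c d.natAbs else jacobiSym c d.natAbs

/-- the theta multiplier `j(γ, z) = ε_d⁻¹ (c/d) (c z + d) ^ (1/2)` -/
noncomputable def j (γ : SL(2, ℤ)) (z : ℍ) : ℂ :=
  (eps (γ 1 1))⁻¹ * (sym (γ 1 0) (γ 1 1) : ℂ) * ((γ 1 0 : ℂ) * z + (γ 1 1 : ℂ)) ^ (1 / 2 : ℂ)

/-- `f` is a cusp form of weight `3/2` on `Γ₀(N)` with character `χ`: holomorphic,
`f(γ z) = χ(d) j(γ, z) ^ 3 f(z)` for `γ` in `Γ₀(N)`, and `f(σ z) (c z + d) ^ (-3/2)` tends to `0` for `Im z → ∞`, for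
every `σ` in `SL₂(ℤ)` -/
structure IsCuspForm (N : ℕ) (χ : DirichletCharacter ℂ N) (f : ℍ → ℂ) : Prop where
  holo : MDifferentiable (modelWithCornersSelf ℂ ℂ) (modelWithCornersSelf ℂ ℂ) f
  slash : ∀ γ ∈ Gamma0 N, ∀ z : ℍ, f (γ • z) = χ ((γ 1 1 : ℤ) : ZMod N) * j γ z ^ 3 * f z
  zero : ∀ σ : SL(2, ℤ), IsZeroAtImInfty fun z : ℍ => f (σ • z) * ((σ 1 0 : ℂ) * z + (σ 1 1 : ℂ)) ^ (-(3 / 2) : ℂ)

/-- the coefficient `a_f(n)` of `e^(2 π i n z)` -/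
noncomputable def coeff (f : ℍ → ℂ) (n : ℕ) : ℂ := (qExpansion 1 f).coeff n

/-- `F` is a measurable strict fundamental domain of `Γ₀(N)`: every orbit meets `F`, and two points of `F` in one orbit are equal -/
structure IsFD (N : ℕ) (F : Set ℍ) : Prop where
  meas : MeasurableSet F
  strict : ∀ γ ∈ Gamma0 N, ∀ z ∈ F, γ • z ∈ F → γ • z = z
  cover : ∀ z : ℍ, ∃ γ ∈ Gamma0 N, γ • z ∈ F

/-- the density `f(z) conj(g(z)) y^(3/2)`, `y = Im z` -/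
noncomputable def dens (f g : ℍ → ℂ) (z : ℍ) : ℂ := f z * conj (g z) * ((z.im ^ (3 / 2 : ℝ) : ℝ) : ℂ)

/-- the Petersson product `⟨f, g⟩ = ∫_F f(z) conj(g(z)) y^(3/2) dμ(z)`, `μ` = hyperbolic measure `dx dy / y²` (Mathlib's
`volume` on `ℍ`) -/
noncomputable def ip (F : Set ℍ) (f g : ℍ → ℂ) : ℂ := ∫ z in F, dens f g z

/-- orthonormal families in `S_{3/2}(N, χ)`, `4 ∣ N` -/
structure IsONFamily (N : ℕ) (χ : DirichletCharacter ℂ N) (F : Set ℍ) {K : ℕ} (f : Fin K → ℍ → ℂ) : Prop where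
  pos : 0 < N
  four : 4 ∣ N
  dom : IsFD N F
  cusp : ∀ k, IsCuspForm N χ (f k)
  orth : ∀ k l, ip F (f k) (f l) = if k = l then 1 else 0

/-- `w_n(Y) = ∫_Y^∞ exp(-4 π n v) v^(-1/2) dv` -/
noncomputable def w (n : ℕ) (Y : ℝ) : ℝ := ∫ v in Set.Ioi Y, Real.exp (-(4 * Real.pi * n * v)) * v ^ (-(1 / 2) : ℝ)

theorem conv {N : ℕ} {χ : DirichletCharacter ℂ N} {f : ℍ → ℂ} (hf : IsCuspForm N χ f) :
    Pool.Agent.Q84.HW.IsCuspForm N χ f := ⟨hf.holo, hf.slash, hf.zero⟩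

theorem master {N : ℕ} {χ : DirichletCharacter ℂ N} {F : Set ℍ} {K : ℕ} {f : Fin K → ℍ → ℂ}
    (h : IsONFamily N χ F f) {S : Finset ℕ} (hS : ∀ n ∈ S, 0 < n) (b : ℕ → ℂ) {Y : ℝ} (hY : 0 < Y) :
    ∑ k, ‖∑ n ∈ S, b n * coeff (f k) n‖ ^ 2 ≤ (1 + 3 / (N * Y)) * ∑ n ∈ S, ‖b n‖ ^ 2 / w n Y ∧
    (1 < N * Y → ∑ k, ‖∑ n ∈ S, b n * coeff (f k) n‖ ^ 2 ≤ ∑ n ∈ S, ‖b n‖ ^ 2 / w n Y) := by
  have : NeZero N := ⟨h.pos.ne'⟩
  refine ⟨Pool.Agent.Helper78.LS.large_sieve (fun k => conv (h.cusp k)) h.dom.meas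
    (Pool.Agent.Helper78.LS.vol_fin h.dom.meas h.dom.strict) h.dom.cover h.orth hS b hY
    (fun w => Pool.Agent.Helper78.LS.count_all h.pos w hY), fun h1 => ?_⟩
  have h2 := Pool.Agent.Helper78.LS.large_sieve (fun k => conv (h.cusp k)) h.dom.meas
    (Pool.Agent.Helper78.LS.vol_fin h.dom.meas h.dom.strict) h.dom.cover h.orth hS b hY
    (fun w => Pool.Agent.Helper78.LS.count_one h.pos w h1)
  rw [one_mul] at h2
  exact h2

/-- the weights for `n ≤ X` -/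
theorem weights {X : ℕ} (b : ℕ → ℂ) {Y : ℝ} (hY : 0 < Y) (h16 : 16 * (X * Y) < 1) :
    (1 / 2 - 2 * √(X * Y)) * ∑ n ∈ Finset.Icc 1 X, ‖b n‖ ^ 2 / w n Y ≤ ∑ n ∈ Finset.Icc 1 X, √n * ‖b n‖ ^ 2 := by
  have ht : 0 < 1 / 2 - 2 * √(X * Y) := by
    have h1 : √(X * Y) < 1 / 4 := by
      rw [Real.sqrt_lt' (by norm_num)]
      linarith
    linarith
  rw [Finset.mul_sum]
  refine Finset.sum_le_sum fun n hn => ?_
  rw [Finset.mem_Icc] at hn
  have hn0 : (0:ℝ) < n := by exact_mod_cast hn.1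
  have hnX : (n:ℝ) ≤ X := by exact_mod_cast hn.2
  have h1 := Pool.Agent.Helper78.LS.Jr_ge hn.1 hY
  have h2 := Pool.Agent.Helper78.LS.Jr_pos hn.1 hY
  change _ ≤ w n Y at h1
  change 0 < w n Y at h2
  have hs : √(n * Y) ≤ √(X * Y) := Real.sqrt_le_sqrt (mul_le_mul_of_nonneg_right hnX hY.le)
  have hsn : 0 < √(n:ℝ) := Real.sqrt_pos.2 hn0
  have h3 : 1 / 2 - 2 * √(X * Y) ≤ w n Y * √n := by
    rw [div_le_iff₀ hsn] at h1
    linarith
  rw [mul_div_assoc', div_le_iff₀ h2]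
  nlinarith [mul_le_mul_of_nonneg_left h3 (sq_nonneg ‖b n‖)]

theorem sharp {N : ℕ} {χ : DirichletCharacter ℂ N} {F : Set ℍ} {K : ℕ} {f : Fin K → ℍ → ℂ}
    (h : IsONFamily N χ F f) (X : ℕ) (b : ℕ → ℂ) (hX : 16 * X < N) :
    (1 - 4 * √(X / N)) * ∑ k, ‖∑ n ∈ Finset.Icc 1 X, b n * coeff (f k) n‖ ^ 2 ≤
      2 * ∑ n ∈ Finset.Icc 1 X, √n * ‖b n‖ ^ 2 := by
  have hN0 : (0:ℝ) < N := by exact_mod_cast h.pos
  have hX16 : 16 * (X:ℝ) < N := by exact_mod_cast hX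
  have hX0 : (0:ℝ) ≤ X := Nat.cast_nonneg X
  obtain ⟨A, hA⟩ : ∃ A : ℝ, A = ∑ k, ‖∑ n ∈ Finset.Icc 1 X, b n * coeff (f k) n‖ ^ 2 := ⟨_, rfl⟩
  rw [← hA]
  have hA0 : 0 ≤ A := by rw [hA]; exact Finset.sum_nonneg fun _ _ => by positivity
  have hev : ∀ᶠ Y in nhdsWithin (1 / (N:ℝ)) (Set.Ioi (1 / (N:ℝ))), (1 / 2 - 2 * √(X * Y)) * A ≤
      ∑ n ∈ Finset.Icc 1 X, √n * ‖b n‖ ^ 2 := by
    have hlt : 1 / (N:ℝ) < 1 / (16 * X + (N - 16 * X) / 2) := by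
      apply one_div_lt_one_div_of_lt <;> linarith
    filter_upwards [Ioo_mem_nhdsGT hlt] with Y hY
    have hY0 : 0 < Y := lt_trans (by positivity) hY.1
    have h1 : 1 < N * Y := by
      have := hY.1
      rw [div_lt_iff₀ hN0] at this
      linarith
    have h16 : 16 * (X * Y) < 1 := by
      have h2 := hY.2
      rw [lt_div_iff₀ (by linarith)] at h2
      nlinarith
    have hm := (master h (S := Finset.Icc 1 X) (fun n hn => (Finset.mem_Icc.1 hn).1) b hY0).2 h1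
    rw [← hA] at hm
    refine le_trans (mul_le_mul_of_nonneg_left hm ?_) (weights b hY0 h16)
    have h3 : √(X * Y) < 1 / 4 := by
      rw [Real.sqrt_lt' (by norm_num)]
      linarith
    linarith
  have hlim : Filter.Tendsto (fun Y : ℝ => (1 / 2 - 2 * √(X * Y)) * A) (nhdsWithin (1 / (N:ℝ)) (Set.Ioi (1 / (N:ℝ))))
      (nhds ((1 / 2 - 2 * √(X * (1 / (N:ℝ)))) * A)) := by
    refine Filter.Tendsto.mono_left ?_ nhdsWithin_le_nhds
    have hc : Continuous fun Y : ℝ => (1 / 2 - 2 * √(X * Y)) * A := by fun_prop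
    exact hc.tendsto _
  have h4 := le_of_tendsto hlim hev
  rw [mul_one_div] at h4
  linarith

theorem crude {N : ℕ} {χ : DirichletCharacter ℂ N} {F : Set ℍ} {K : ℕ} {f : Fin K → ℍ → ℂ}
    (h : IsONFamily N χ F f) (X : ℕ) (b : ℕ → ℂ) :
    ∑ k, ‖∑ n ∈ Finset.Icc 1 X, b n * coeff (f k) n‖ ^ 2 ≤
      (4 + 768 * X / N) * ∑ n ∈ Finset.Icc 1 X, √n * ‖b n‖ ^ 2 := by
  rcases Nat.eq_zero_or_pos X with rfl | hX
  · simp
  have hN0 : (0:ℝ) < N := by exact_mod_cast h.pos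
  have hX0 : (0:ℝ) < X := by exact_mod_cast hX
  have hY : 0 < 1 / (64 * (X:ℝ)) := by positivity
  have e0 : (X:ℝ) * (1 / (64 * X)) = (1 / 8) ^ 2 := by field_simp; norm_num
  have hm := (master h (S := Finset.Icc 1 X) (fun n hn => (Finset.mem_Icc.1 hn).1) b hY).1
  have hw := weights (X := X) b hY (by rw [e0]; norm_num)
  rw [e0, Real.sqrt_sq (by norm_num)] at hw
  have e1 : 1 + 3 / (N * (1 / (64 * (X:ℝ)))) = 1 + 192 * X / N := by field_simp; ring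
  rw [e1] at hm
  have h0 : 0 ≤ 1 + 192 * (X:ℝ) / N := by positivity
  have e2 : (4 + 768 * (X:ℝ) / N) = 4 * (1 + 192 * X / N) := by ring
  rw [e2]
  nlinarith [mul_le_mul_of_nonneg_left hw h0]

theorem sum_delta {n : ℕ} (hn : 1 ≤ n) (a : ℕ → ℂ) :
    ∑ m ∈ Finset.Icc 1 n, (if m = n then (1:ℂ) else 0) * a m = a n := by
  rw [Finset.sum_eq_single n]
  · simp
  · intro m _ hm; simp [hm]
  · intro h; exact absurd (Finset.mem_Icc.2 ⟨hn, le_rfl⟩) h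

theorem sum_delta' {n : ℕ} (hn : 1 ≤ n) :
    ∑ m ∈ Finset.Icc 1 n, √m * ‖(if m = n then (1:ℂ) else 0)‖ ^ 2 = √n := by
  rw [Finset.sum_eq_single n]
  · simp
  · intro m _ hm; simp [hm]
  · intro h; exact absurd (Finset.mem_Icc.2 ⟨hn, le_rfl⟩) h

/-- **Theorem.** -/
theorem result :
    -- strict fundamental domains exist
    (∀ N : ℕ, 0 < N → ∃ F : Set ℍ, IsFD N F) ∧
    -- the Petersson products are convergent integrals
    (∀ (N : ℕ) (χ : DirichletCharacter ℂ N) (F : Set ℍ) (f g : ℍ → ℂ), 0 < N → IsFD N F →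
      IsCuspForm N χ f → IsCuspForm N χ g → IntegrableOn (dens f g) F) ∧
    (∀ (N : ℕ) (χ : DirichletCharacter ℂ N) (F : Set ℍ) (K : ℕ) (f : Fin K → ℍ → ℂ), IsONFamily N χ F f →
      -- the large sieve inequality
      (∀ (S : Finset ℕ) (b : ℕ → ℂ) (Y : ℝ), (∀ n ∈ S, 0 < n) → 0 < Y →
        ∑ k, ‖∑ n ∈ S, b n * coeff (f k) n‖ ^ 2 ≤ (1 + 3 / (N * Y)) * ∑ n ∈ S, ‖b n‖ ^ 2 / w n Y ∧
        (1 < N * Y → ∑ k, ‖∑ n ∈ S, b n * coeff (f k) n‖ ^ 2 ≤ ∑ n ∈ S, ‖b n‖ ^ 2 / w n Y)) ∧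
      -- for sums over `n ≤ X`
      (∀ (X : ℕ) (b : ℕ → ℂ),
        ∑ k, ‖∑ n ∈ Finset.Icc 1 X, b n * coeff (f k) n‖ ^ 2 ≤
          (4 + 768 * X / N) * ∑ n ∈ Finset.Icc 1 X, √n * ‖b n‖ ^ 2 ∧
        (16 * X < N → (1 - 4 * √(X / N)) * ∑ k, ‖∑ n ∈ Finset.Icc 1 X, b n * coeff (f k) n‖ ^ 2 ≤
          2 * ∑ n ∈ Finset.Icc 1 X, √n * ‖b n‖ ^ 2)) ∧
      -- the mean square over the family at one `n`
      (∀ n : ℕ, 1 ≤ n → ∑ k, ‖coeff (f k) n‖ ^ 2 ≤ (4 + 768 * n / N) * √n ∧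
        (16 * n < N → (1 - 4 * √(n / N)) * ∑ k, ‖coeff (f k) n‖ ^ 2 ≤ 2 * √n))) ∧
    -- every form, every index, every prime
    (∀ (p : ℕ) (χ : DirichletCharacter ℂ (24 * p)) (F : Set ℍ) (f : ℍ → ℂ), p.Prime → IsFD (24 * p) F →
      IsCuspForm (24 * p) χ f → ∀ r : ℕ, 1 ≤ r →
        ‖coeff f r‖ ^ 2 ≤ (4 + 32 * r / p) * √r * ‖ip F f f‖) := by
  refine ⟨fun N hN => ?_, fun N χ F f g hN hF hf hg => ?_, fun N χ F K f h => ⟨fun S b Y hS hY => master h hS b hY,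
    fun X b => ⟨crude h X b, sharp h X b⟩, fun n hn => ?_⟩, fun p χ F f hp hF hf r hr => ?_⟩
  · exact ⟨_, Pool.Agent.Helper78.LS.measSet_F0 N, Pool.Agent.Helper78.LS.strict_F0 N,
      Pool.Agent.Helper78.LS.cover_F0 hN⟩
  · have : NeZero N := ⟨hN.ne'⟩
    exact Pool.Agent.Helper78.LS.pd_int (conv hf) (conv hg) (Pool.Agent.Helper78.LS.vol_fin hF.meas hF.strict)
  · have h1 := crude h n (fun m => if m = n then 1 else 0)
    have h2 := sharp h n (fun m => if m = n then 1 else 0)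
    simp only [sum_delta hn, sum_delta' hn] at h1 h2
    exact ⟨h1, h2⟩
  · have hN : 0 < 24 * p := by have := hp.pos; omega
    have : NeZero (24 * p) := ⟨hN.ne'⟩
    have hv := Pool.Agent.Helper78.LS.vol_fin hF.meas hF.strict
    have hp0 : (0:ℝ) < p := by exact_mod_cast hp.pos
    have hr0 : (0:ℝ) < r := by exact_mod_cast hr
    have hY : 0 < 1 / (64 * (r:ℝ)) := by positivity
    have h1 := Pool.Agent.Helper78.LS.one_form (conv hf) hF.meas hv hF.cover (S := {r})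
      (fun n hn => by rw [Finset.mem_singleton] at hn; omega) hY
      (fun w => Pool.Agent.Helper78.LS.count_all hN w hY)
    rw [Finset.sum_singleton] at h1
    have h2 : ∫ z in F, Pool.Agent.Helper78.LS.dens f z = ‖ip F f f‖ := by
      have e1 : ip F f f = ((∫ z in F, Pool.Agent.Helper78.LS.dens f z : ℝ) : ℂ) := by
        rw [← integral_complex_ofReal]
        unfold ip
        refine integral_congr_ae (Filter.Eventually.of_forall fun z => ?_)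
        exact Pool.Agent.Helper78.LS.pd_self f z
      rw [e1, Complex.norm_real, Real.norm_of_nonneg]
      exact setIntegral_nonneg hF.meas fun z _ => Pool.Agent.Helper78.LS.dens_nonneg f z
    rw [h2] at h1
    have h3 := Pool.Agent.Helper78.LS.Jr_ge hr hY
    have e0 : (r:ℝ) * (1 / (64 * r)) = (1 / 8) ^ 2 := by field_simp; norm_num
    rw [e0, Real.sqrt_sq (by norm_num)] at h3
    have e : (1 + 3 / (((24 * p : ℕ) : ℝ) * (1 / (64 * (r:ℝ))))) = 1 + 8 * r / p := by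
      push_cast; field_simp; ring
    rw [e] at h1
    have hs : 0 < √(r:ℝ) := Real.sqrt_pos.2 hr0
    have h4 : ‖coeff f r‖ ^ 2 * ((1 / 2 - 2 * (1 / 8)) / √r) ≤ (1 + 8 * r / p) * ‖ip F f f‖ :=
      (mul_le_mul_of_nonneg_left h3 (by positivity)).trans h1
    rw [mul_div_assoc', div_le_iff₀ hs] at h4
    have e5 : (4 + 32 * (r:ℝ) / p) * √r * ‖ip F f f‖ = 4 * ((1 + 8 * r / p) * ‖ip F f f‖ * √r) := by ring
    rw [e5]
    linarith

end Pool.Agent.Results.MP_af11aa_nt.UniformLargeSieve
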